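import Pool.Agent.Lib.MP_280b4e_pr.Final

/-!
Self-avoiding walks and self-avoiding polygons in the half space of the cubic lattice, with an
energy for the vertices in the wall and an energy for the contacts, have the same free energy.
-/

namespace Pool.Agent.Results.MP_280b4e_pr.FreeEnergy

open Pool.Agent.Lib.MP_280b4e_pr

/-- For all real wall and contact energies the free energy of the polygons exists, the free energy
of the walks exists, and they are equal. -/
theorem result : ∀ ζ γ : ℝ, ∃ κ : ℝ,
    Filter.Tendsto (fun m : ℕ => Real.log (Q (2 * m) ζ γ) / (2 * m)) Filter.atTop (nhds κ) ∧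
    Filter.Tendsto (fun n : ℕ => Real.log (Z n ζ γ) / n) Filter.atTop (nhds κ) :=
  fun ζ γ => main ζ γ

end Pool.Agent.Results.MP_280b4e_pr.FreeEnergy
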